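import Pool.Graph.R_pool_sql_team_seeded_63374d34.N649.SV.Fin
import Pool.Graph.R_pool_sql_team_seeded_63374d34.N649.SN.Fin
import Pool.Agent.H4.FG.Tame

set_option autoImplicit false

/-!
# The countable-or-perfect dichotomy for locally finite varieties of semigroups

The Polish group `Sym(ℕ)` acts on the space `ℕ → ℕ → ℕ` of the binary operations on `ℕ`. Let `V` be
a variety of semigroups, given by a set `E` of identities. A rectangular group is a regular
semigroup in which `e f e = e` for all idempotents `e, f`.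

* If `V` contains a nonabelian group which is solvable, residually finite or locally finite (for
  instance finite), then the groups in `V` are faithfully complete, and the dichotomy for the
  invariant Borel sets of groups in `V` is equivalent to the dichotomy for all countable structures,
  i.e. for all Borel actions of `Sym(ℕ)` on spaces of relational structures.
* So the answer is complete if all groups in `V` are abelian, or if `V` contains a nonabelian group
  of this kind: the dichotomy holds for `V` exactly if `V` satisfies `x y = x z` or `y x = z x`,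
  or `V` consists of rectangular groups with abelian subgroups, or else it holds for all structures.
* This is the case if all groups in `V` are solvable, residually finite or locally finite, hence for
  all locally finite varieties and all varieties generated by a finite semigroup.
-/

namespace Pool.Agent.Results.MP_5607ba_lc.LocallyFiniteVarieties

open Pool.Agent.N649.SG.Light (T Sa)

/-- Isomorphism of operations on `ℕ`: `x` and `y` are in the same orbit of `Sym(ℕ)`. -/
def OpIso (x y : ℕ → ℕ → ℕ) : Prop := ∃ σ : Equiv.Perm ℕ, ∀ m n, y (σ m) (σ n) = σ (x m n)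

/-- Relational structures on `ℕ` with relations of arities `a 0, a 1, ...`. -/
abbrev Str (a : ℕ → ℕ) : Type := (i : ℕ) → (Fin (a i) → ℕ) → Bool

/-- Isomorphism of structures: the orbits of `Sym(ℕ)`. -/
def Iso {a : ℕ → ℕ} (x y : Str a) : Prop :=
  ∃ σ : Equiv.Perm ℕ, ∀ (i : ℕ) (v : Fin (a i) → ℕ), y i (⇑σ ∘ v) = x i v

/-- The dichotomy for the class `K`: every Borel set of members of `K`, invariant under `R`, has
countably many `R`-classes or contains a continuous family, indexed by the Cantor space, of pairwise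
inequivalent members. -/
def Dichotomy {X : Type} [TopologicalSpace X] [MeasurableSpace X] (R : X → X → Prop)
    (K : X → Prop) : Prop :=
  ∀ B : Set X, MeasurableSet B → (∀ x y, R x y → (x ∈ B ↔ y ∈ B)) → (∀ x ∈ B, K x) →
    (∃ f : ℕ → X, ∀ x ∈ B, ∃ n, R (f n) x) ∨
    (∃ g : (ℕ → Bool) → X, Continuous g ∧ (∀ c, g c ∈ B) ∧ ∀ c d, R (g c) (g d) → c = d)

/-- The dichotomy for all countable structures, in all countable relational languages. -/
def DichotomyAll : Prop := ∀ a : ℕ → ℕ, Dichotomy (Iso (a := a)) (fun _ => True)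

/-- `K` is faithfully complete: for every invariant Borel set `B` of structures (in any countable
relational language) there are an invariant Borel set `B'` of members of `K` and a Borel map `F`
from `B'` to `B` that induces a bijection of the orbits. -/
def FaithfullyComplete (K : (ℕ → ℕ → ℕ) → Prop) : Prop :=
  ∀ (a : ℕ → ℕ) (B : Set (Str a)), MeasurableSet B → (∀ x y, Iso x y → (x ∈ B ↔ y ∈ B)) →
    ∃ (B' : Set (ℕ → ℕ → ℕ)) (F : (ℕ → ℕ → ℕ) → Str a), MeasurableSet B' ∧
      (∀ y z, OpIso y z → (y ∈ B' ↔ z ∈ B')) ∧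
      (∀ y ∈ B', K y) ∧ Measurable F ∧ (∀ y ∈ B', F y ∈ B) ∧
      (∀ y ∈ B', ∀ z ∈ B', OpIso y z ↔ Iso (F y) (F z)) ∧ ∀ x ∈ B, ∃ y ∈ B', Iso x (F y)

variable {M : Type}

/-- `o` is in the variety of semigroups given by the identities `E`. -/
def InVariety (E : Set (T × T)) (o : M → M → M) : Prop :=
  (∀ x y z : M, o (o x y) z = o x (o y z)) ∧ Sa E o

/-- `o` is a group (or empty), if it is associative. -/
def IsGroup (o : M → M → M) : Prop := ∀ a b : M, (∃ x, o a x = b) ∧ ∃ x, o x a = b

/-- `o` is a group (or empty) in the variety. -/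
def GroupIn (E : Set (T × T)) (o : M → M → M) : Prop := InVariety E o ∧ IsGroup o

/-- `o` is a rectangular group, if it is associative. -/
def IsRectGroup (o : M → M → M) : Prop :=
  (∀ a : M, ∃ x, o (o a x) a = a) ∧ ∀ e f : M, o e e = e → o f f = f → o (o e f) e = e

/-- All members of the variety are rectangular groups. -/
def AllRectGroups (E : Set (T × T)) : Prop :=
  ∀ (M : Type) (o : M → M → M), InVariety E o → IsRectGroup o

/-- All groups in the variety are abelian. -/
def AbelianGroups (E : Set (T × T)) : Prop :=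
  ∀ (M : Type) (o : M → M → M), InVariety E o → IsGroup o → ∀ x y : M, o x y = o y x

/-- `x y = x z` holds in all members of the variety, or `y x = z x` does. -/
def Unary (E : Set (T × T)) : Prop :=
  (∀ (M : Type) (o : M → M → M), InVariety E o → ∀ x y z : M, o x y = o x z) ∨
    ∀ (M : Type) (o : M → M → M), InVariety E o → ∀ x y z : M, o y x = o z x

/-- `G` is solvable, residually finite or locally finite. -/
def Tame (G : Type) [Group G] : Prop :=
  Group.IsSolvable G ∨
  (∀ g : G, g ≠ 1 → ∃ N : Subgroup G, N.Normal ∧ N.FiniteIndex ∧ g ∉ N) ∨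
  ∀ s : Finset G, ∃ H : Subgroup G, Finite H ∧ ∀ x ∈ s, x ∈ H

/-- The variety contains a nonabelian group which is solvable, residually finite or locally
finite. -/
def HasTame (E : Set (T × T)) : Prop :=
  ∃ (G : Type) (_ : Group G), InVariety E (fun x y : G => x * y) ∧ Tame G ∧
    ∃ a b : G, a * b ≠ b * a

/-- In all members of the variety, every finite set is contained in a finite subsemigroup. -/
def LocallyFinite (E : Set (T × T)) : Prop :=
  ∀ (M : Type) (o : M → M → M), InVariety E o → ∀ s : Set M, s.Finite →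
    ∃ t : Set M, t.Finite ∧ s ⊆ t ∧ ∀ x ∈ t, ∀ y ∈ t, o x y ∈ t

/-- The variety is generated by a finite semigroup, or contained in such a variety. -/
def InFinitelyGenerated (E : Set (T × T)) : Prop :=
  ∃ (S : Type) (o : S → S → S), Finite S ∧
    ∀ p : T × T, (∀ v : ℕ → S, p.1.val o v = p.2.val o v) → p ∈ E

theorem result (E : Set (T × T)) :
    -- the groups in the variety, if one of them is nonabelian and tame
    (HasTame E → FaithfullyComplete (GroupIn E) ∧
      (Dichotomy OpIso (GroupIn E) ↔ DichotomyAll)) ∧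
    -- the complete answer if all groups are abelian, or if some nonabelian group is tame
    (AbelianGroups E ∨ HasTame E →
      (Dichotomy OpIso (InVariety E) ↔ Unary E ∨ (AllRectGroups E ∧ AbelianGroups E) ∨
        DichotomyAll) ∧
      (¬ Unary E → ¬ (AllRectGroups E ∧ AbelianGroups E) → FaithfullyComplete (InVariety E))) ∧
    -- the hypothesis holds if all groups are tame, for instance in locally finite varieties
    ((∀ (G : Type) [Group G], InVariety E (fun x y : G => x * y) → Tame G) →
      AbelianGroups E ∨ HasTame E) ∧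
    (LocallyFinite E → AbelianGroups E ∨ HasTame E) ∧
    (InFinitelyGenerated E → LocallyFinite E) := by
  have pv : ∀ {X : Type} [TopologicalSpace X] [MeasurableSpace X] (R : X → X → Prop)
      (K : X → Prop), Dichotomy R K ↔ W889.VC.VCof True R K := by
    intro X _ _ R K
    constructor
    · intro h B h1 h2 h3
      rcases h B h1 h2 h3 with ⟨f, hf⟩ | ⟨g, h3, h4, h5⟩
      · exact Or.inl ⟨f, hf⟩
      · exact Or.inr ⟨g, fun _ => h3, h4, h5⟩
    · intro h B h1 h2 h3
      rcases h B h1 h2 h3 with ⟨f, hf⟩ | ⟨g, h3, h4, h5⟩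
      · exact Or.inl ⟨f, hf⟩
      · exact Or.inr ⟨g, h3 trivial, h4, h5⟩
  have mono : ∀ {K K' : (ℕ → ℕ → ℕ) → Prop}, (∀ o, K' o → K o) → Dichotomy OpIso K →
      Dichotomy OpIso K' := fun h hd B h1 h2 h3 => hd B h1 h2 fun x hx => h x (h3 x hx)
  have hU : Unary E → Dichotomy OpIso (InVariety E) := by
    rintro (h | h)
    · exact mono (fun o ho => ⟨ho.1, h ℕ o ho⟩) ((pv _ _).2 N649.SV.leaf_U.1)
    · exact mono (fun o ho => ⟨ho.1, h ℕ o ho⟩) ((pv _ _).2 N649.SV.leaf_U.2)
  have hall : ∀ K : (ℕ → ℕ → ℕ) → Prop, DichotomyAll → Dichotomy OpIso K := fun K h =>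
    (pv _ _).2 (N649.SV.vc_of_rel ((pv _ _).1 (h N649.SV.A3)) _)
  have hF : ¬ Unary E → ¬ AllRectGroups E → W889.VC.Faithful OpIso (InVariety E) := by
    intro h1 h2
    rcases N649.SV.faithful E with h | h | h | h
    · exact h
    · exact absurd (show Unary E from Or.inl fun M o ho => h M o ho.1 ho.2) h1
    · exact absurd (show Unary E from Or.inr fun M o ho => h M o ho.1 ho.2) h1
    · exact absurd (show AllRectGroups E from fun M o ho => (h M o ho.1 ho.2).2) h2
  have hF' : ∀ {K : (ℕ → ℕ → ℕ) → Prop}, W889.VC.Faithful OpIso K → Dichotomy OpIso K →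
      DichotomyAll := fun h hd a => (pv _ _).2 (h.vaught True ((pv _ _).1 hd) a)
  have hG : AllRectGroups E → Dichotomy OpIso (GroupIn E) → Dichotomy OpIso (InVariety E) := by
    intro hr h
    have h1 := N649.SV.leaf_G E ((pv _ _).1 (mono (K' := fun o =>
      N649.SV.Grp o ∧ Sa E o) (fun o ho => ⟨⟨ho.1.1, ho.2⟩, ho.1.2⟩) h))
    exact mono (fun o ho => ⟨⟨ho.1, hr ℕ o ho⟩, ho.2⟩) ((pv _ _).2 h1)
  have hT : HasTame E → W889.VC.Faithful OpIso (GroupIn E) := by
    rintro ⟨G, i, h1, h2, a, b, hab⟩
    exact (H4.FG.faithful_alt (H4.FG.alt_fin (H4.FG.Tame.finNA h1.2 h2 hab))).mono fun o ho =>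
      ⟨⟨ho.1.1, ho.2⟩, ho.1.2⟩
  have hTV : HasTame E → W889.VC.Faithful OpIso (InVariety E) := fun h =>
    (hT h).mono fun o ho => ho.1
  have hR : AllRectGroups E → AbelianGroups E → Dichotomy OpIso (InVariety E) := by
    intro hr ha
    refine hG hr fun B _ _ h3 => Or.inl ?_
    have hnot : ¬ Sa E (fun x y : ℕ+ => x + y) := by
      intro h
      obtain ⟨x, hx⟩ := (hr ℕ+ (fun x y => x + y) ⟨fun x y z => add_assoc x y z, h⟩).1 1
      have := congrArg PNat.val hx
      simp only [PNat.add_coe] at this
      have h5 := x.pos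
      have h6 : ((1 : ℕ+) : ℕ) = 1 := rfl
      omega
    obtain ⟨f, hf⟩ := N649.SN.ab_list_fin hnot
    exact ⟨f, fun x hx => hf x ⟨(h3 x hx).1.1, (h3 x hx).2⟩ (h3 x hx).1.2
      (ha ℕ x (h3 x hx).1 (h3 x hx).2)⟩
  have hK : AbelianGroups E ∨ HasTame E → ¬ Unary E → ¬ (AllRectGroups E ∧ AbelianGroups E) →
      W889.VC.Faithful OpIso (InVariety E) := by
    intro h h1 h2
    by_cases hr : AllRectGroups E
    · rcases h with h | h
      · exact absurd ⟨hr, h⟩ h2
      · exact hTV h
    · exact hF h1 hr
  have hex : ¬ AbelianGroups E → ∃ (M : Type) (o : M → M → M), GroupIn E o ∧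
      ∃ a b : M, o a b ≠ o b a := by
    intro ha
    unfold AbelianGroups at ha
    push Not at ha
    obtain ⟨M, o, hM, hM', a, b, hab⟩ := ha
    exact ⟨M, o, ⟨hM, hM'⟩, a, b, hab⟩
  refine ⟨fun h => ⟨hT h, hF' (hT h), hall _⟩, fun hg => ⟨⟨fun h => ?_, ?_⟩, hK hg⟩, fun h => ?_,
    fun h => ?_, ?_⟩
  · by_cases hu : Unary E
    · exact Or.inl hu
    by_cases hb : AllRectGroups E ∧ AbelianGroups E
    · exact Or.inr (Or.inl hb)
    · exact Or.inr (Or.inr (hF' (hK hg hu hb) h))
  · rintro (h | h | h)
    · exact hU h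
    · exact hR h.1 h.2
    · exact hall _ h
  · by_contra hne
    push Not at hne
    obtain ⟨M, o, hM, a, b, hab⟩ := hex hne.1
    obtain ⟨iM, hmul⟩ := N649.SL.AbL.grp_ex (show N649.SV.Grp o from ⟨hM.1.1, hM.2⟩) a
    have ho : (fun x y : M => x * y) = o := funext fun x => funext fun y => hmul x y
    have hV : InVariety E (fun x y : M => x * y) := by
      rw [ho]
      exact hM.1
    refine hne.2 ⟨M, iM, hV, h M hV, a, b, ?_⟩
    rw [hmul, hmul]
    exact hab
  · by_contra hne
    push Not at hne
    obtain ⟨M, o, hM, a, b, hab⟩ := hex hne.1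
    have hl : H4.FG.LocFin E := fun M o h1 h2 => h M o ⟨h1, h2⟩
    obtain ⟨G, iG, h1, h2, a, b, h3⟩ := hl.finNA (show N649.SV.Grp o from ⟨hM.1.1, hM.2⟩) hM.1.2 hab
    refine hne.2 ⟨G, iG, ⟨fun x y z => mul_assoc x y z, h2⟩, Or.inr (Or.inr fun s => ⟨⊤, ?_, ?_⟩),
      a, b, h3⟩
    · exact inferInstance
    · exact fun x _ => Subgroup.mem_top x
  · rintro ⟨S, o, hS, hE⟩
    exact fun M m h => H4.FG.locFin_of_finite o hE M m h.1 h.2

end Pool.Agent.Results.MP_5607ba_lc.LocallyFiniteVarieties
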